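import Mathlib
import Pool.Agent.Q25.PLP.Top

/-!
# Mason's points-lines-planes conjecture

For every finite simple matroid of rank at least three with `n` points, `t` lines and `π` planes,
`t ^ 2 ≥ 3 n (n - 1) π / (2 (n - 2))`, and equality holds only if every plane contains exactly three
points. The proof: every line chooses one of its points at random with a law that is a limit of
Gibbs fixed points; the expected number of collisions inside every plane is compared with the
variance of the number of choices of a point by a local inequality.
-/

set_option autoImplicit false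

namespace Pool.Agent.Results.MP_5bba21_co.MasonConjecture

/-- The points-lines-planes conjecture of Mason (1972), with the equality clause. The matroid is
simple (every set of at most two elements of the ground set is independent), so its points are the
elements of the ground set. -/
theorem result {α : Type*} (M : Matroid α) [M.Finite]
    (hsimple : ∀ x ∈ M.E, ∀ y ∈ M.E, M.Indep {x, y}) (hrank : 3 ≤ M.eRank) :
    3 * (M.E.ncard : ℝ) * ((M.E.ncard : ℝ) - 1) / (2 * ((M.E.ncard : ℝ) - 2)) *
        ({F : Set α | M.IsFlat F ∧ M.eRk F = 3}.ncard : ℝ) ≤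
      ({F : Set α | M.IsFlat F ∧ M.eRk F = 2}.ncard : ℝ) ^ 2 ∧
    (({F : Set α | M.IsFlat F ∧ M.eRk F = 2}.ncard : ℝ) ^ 2 =
        3 * (M.E.ncard : ℝ) * ((M.E.ncard : ℝ) - 1) / (2 * ((M.E.ncard : ℝ) - 2)) *
        ({F : Set α | M.IsFlat F ∧ M.eRk F = 3}.ncard : ℝ) →
      ∀ F : Set α, M.IsFlat F → M.eRk F = 3 → F.ncard = 3) :=
  Pool.Agent.Q25.PLP.mason_matroid Pool.Agent.Q25.PLP.fin_true Pool.Agent.Q25.PLP.m1_true M
    hsimple hrank

end Pool.Agent.Results.MP_5bba21_co.MasonConjecture
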